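import Pool.Agent.Helper5.BD.GDefs

/-!
# Module GP1: pulling a drawing back to fewer edges
-/

noncomputable section

open Finset Helper5.CR Classical Equiv Equiv.Perm

namespace Helper5.BD

variable {V E : Type} [Fintype E] {src tgt : E → V}

namespace GP1

theorem rev_inner_perm {D X : Type} {pt : D → X} {α : Perm D} (hα : ∀ d, α (α d) = d) {x y : X}
    {l : List D} (hl : l ≠ []) (h : IsWalk pt α x y l) :
    ((M8.rev α l).tail.map pt).Perm (l.tail.map pt) := by
  rw [List.perm_iff_count]
  intro z
  exact M8.inner_rev hα z hl h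

theorem route_ne_nil (P : PreDrawing src tgt) (e : E) (hne : src e ≠ tgt e) : P.route e ≠ [] := by
  intro h0
  have h1 := P.route_walk e
  rw [h0] at h1
  exact hne (P.loc_inj h1)

/-- the new route -/
def rt {E' : Type} {src' tgt' : E' → V} (P : PreDrawing src tgt) (κ : E' → E) (e : E') :
    List P.D :=
  if src' e = src (κ e) ∧ tgt' e = tgt (κ e) then P.route (κ e)
  else M8.rev P.α (P.route (κ e))

theorem rt_perm {E' : Type} {src' tgt' : E' → V} (P : PreDrawing src tgt)
    (hne : ∀ e, src e ≠ tgt e) (κ : E' → E) (e : E') :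
    ((rt (src' := src') (tgt' := tgt') P κ e).tail.map P.pt).Perm
      ((P.route (κ e)).tail.map P.pt) := by
  unfold rt
  split_ifs with hc
  · exact List.Perm.refl _
  · exact rev_inner_perm P.α_invol (route_ne_nil P (κ e) (hne _)) (P.route_walk (κ e))

end GP1

/-- pulling a drawing back to fewer edges, some of them reversed -/
theorem exists_pull {E' : Type} [Fintype E'] {src' tgt' : E' → V} (P : PreDrawing src tgt)
    (hne : ∀ e, src e ≠ tgt e) (κ : E' → E) (hκ : Function.Injective κ)
    (h : ∀ e, (src' e = src (κ e) ∧ tgt' e = tgt (κ e)) ∨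
      (src' e = tgt (κ e) ∧ tgt' e = src (κ e))) :
    ∃ P' : PreDrawing src' tgt', ∃ j : P.X ≃ P'.X,
      ∀ e, (ipts P' e).Perm ((ipts P (κ e)).map j) := by
  refine ⟨{ D := P.D, X := P.X, finD := P.finD, finX := P.finX, σ := P.σ, α := P.α,
            α_invol := P.α_invol, α_ne := P.α_ne, planar := P.planar, pt := P.pt,
            pt_iff := P.pt_iff, loc := P.loc, loc_inj := P.loc_inj,
            route := GP1.rt (src' := src') (tgt' := tgt') P κ,
            route_walk := ?_, route_inner := ?_, route_use := ?_ }, Equiv.refl _, ?_⟩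
  · intro e
    unfold GP1.rt
    split_ifs with hc
    · rw [hc.1, hc.2]
      exact P.route_walk (κ e)
    · rcases h e with h1 | h1
      · exact absurd h1 hc
      · rw [h1.1, h1.2]
        exact M8.isWalk_rev P.α_invol (P.route_walk (κ e))
  · intro e d hd v hv
    have h1 : P.pt d ∈ (GP1.rt (src' := src') (tgt' := tgt') P κ e).tail.map P.pt :=
      List.mem_map_of_mem hd
    rw [(GP1.rt_perm P hne κ e).mem_iff] at h1
    obtain ⟨d', hd', h2⟩ := List.mem_map.1 h1
    exact P.route_inner (κ e) d' hd' v (h2.trans hv)
  · intro d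
    have h1 : ∀ e : E', (GP1.rt (src' := src') (tgt' := tgt') P κ e).count d +
        (GP1.rt (src' := src') (tgt' := tgt') P κ e).count (P.α d) =
        (P.route (κ e)).count d + (P.route (κ e)).count (P.α d) := by
      intro e
      unfold GP1.rt
      split_ifs with hc
      · rfl
      · exact M8.use_rev P.α_invol d (P.route (κ e))
    rw [Finset.sum_congr rfl fun e _ => h1 e]
    have h2 : ∑ e : E', ((P.route (κ e)).count d + (P.route (κ e)).count (P.α d)) =
        ∑ e ∈ univ.image κ, ((P.route e).count d + (P.route e).count (P.α d)) :=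
      (Finset.sum_image (f := fun e => (P.route e).count d + (P.route e).count (P.α d))
        (fun a _ b _ hab => hκ hab)).symm
    rw [h2]
    exact (Finset.sum_le_sum_of_subset (Finset.subset_univ _)).trans (P.route_use d)
  · intro e
    show ((GP1.rt (src' := src') (tgt' := tgt') P κ e).tail.map P.pt).Perm
      (((P.route (κ e)).tail.map P.pt).map (Equiv.refl P.X))
    have h1 : ((P.route (κ e)).tail.map P.pt).map (Equiv.refl P.X) =
        (P.route (κ e)).tail.map P.pt := by
      simp
    rw [h1]
    exact GP1.rt_perm P hne κ e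

end Helper5.BD
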