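import Pool.Agent.Helper5.BD.GDefs

/-!
# Module GR1: walks in the wheel map
-/

noncomputable section

open Finset Helper5.CR Classical Equiv Equiv.Perm

namespace Helper5.BD

variable {V E : Type} [Fintype E] {src tgt : E → V}

namespace GR1

/-- the walk in the wheel map along one dart -/
def Fw {D : Type} (α : Perm D) (d : D) : List (D × Fin 5) := [(d, 4), (d, 0), (α d, 2)]

/-- the derived equality test of a sum type is lawful -/
theorem lawful_sum {X D : Type} [BEq X] [LawfulBEq X] [BEq D] [LawfulBEq D] :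
    LawfulBEq (X ⊕ D) where
  eq_of_beq := by
    rintro (a | a) (b | b) h
    · exact congrArg _ (eq_of_beq (show (a == b) = true from h))
    · exact absurd h (by simp [BEq.beq, Sum.instBEq.beq])
    · exact absurd h (by simp [BEq.beq, Sum.instBEq.beq])
    · exact congrArg _ (eq_of_beq (show (a == b) = true from h))
  rfl := by
    rintro (a | a)
    · show (a == a) = true
      simp
    · show (a == a) = true
      simp

section gen

variable {D X : Type} {σ α : Perm D} {pt : D → X} {α' : Perm (D × Fin 5)}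

theorem flat_cons (d : D) (r : List D) :
    (d :: r).flatMap (Fw α) = (d, 4) :: (d, 0) :: (α d, 2) :: r.flatMap (Fw α) := by
  simp [Fw]

theorem walk_flat (hopp : ∀ a, α' a = wa α a) {y : X} : ∀ {r : List D} {x : X},
    IsWalk pt α x y r → IsWalk (wpt σ pt) α' (Sum.inl x) (Sum.inl y) (r.flatMap (Fw α))
  | [], x, h => by
    have : x = y := h
    subst this
    rfl
  | d :: r, x, h => by
    obtain ⟨h1, h2⟩ := h
    have ih := walk_flat hopp h2
    rw [flat_cons]
    refine ⟨?_, ?_, ?_, ?_⟩
    · simp [wpt, h1]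
    · rw [hopp]
      simp [wpt, wa]
    · rw [hopp]
      simp [wpt, wa]
    · rw [hopp]
      have : wpt σ pt (wa α (α d, 2)) = Sum.inl (pt (α d)) := by
        simp [wpt, wa]
      rw [this]
      exact ih

theorem mem_flat {r : List D} {a : D × Fin 5} (h : a ∈ r.flatMap (Fw α)) :
    ∃ d ∈ r, a = (d, 4) ∨ a = (d, 0) ∨ a = (α d, 2) := by
  obtain ⟨d, hd, ha⟩ := List.mem_flatMap.1 h
  refine ⟨d, hd, ?_⟩
  simpa [Fw] using ha

theorem nodup_flat : ∀ {r : List D}, r.Nodup → (r.flatMap (Fw α)).Nodup
  | [], _ => List.nodup_nil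
  | d :: r, h => by
    rw [List.nodup_cons] at h
    rw [flat_cons]
    have ih := nodup_flat h.2
    refine List.nodup_cons.2 ⟨?_, List.nodup_cons.2 ⟨?_, List.nodup_cons.2 ⟨?_, ih⟩⟩⟩
    · intro hm
      simp only [List.mem_cons, Prod.mk.injEq] at hm
      rcases hm with ⟨-, hm⟩ | ⟨-, hm⟩ | hm
      · exact absurd hm (by decide)
      · exact absurd hm (by decide)
      · obtain ⟨b, hb, h1 | h1 | h1⟩ := mem_flat hm
        · rw [Prod.mk.injEq] at h1
          exact h.1 (h1.1 ▸ hb)
        · rw [Prod.mk.injEq] at h1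
          exact absurd h1.2 (by decide)
        · rw [Prod.mk.injEq] at h1
          exact absurd h1.2 (by decide)
    · intro hm
      simp only [List.mem_cons, Prod.mk.injEq] at hm
      rcases hm with ⟨-, hm⟩ | hm
      · exact absurd hm (by decide)
      · obtain ⟨b, hb, h1 | h1 | h1⟩ := mem_flat hm
        · rw [Prod.mk.injEq] at h1
          exact absurd h1.2 (by decide)
        · rw [Prod.mk.injEq] at h1
          exact h.1 (h1.1 ▸ hb)
        · rw [Prod.mk.injEq] at h1
          exact absurd h1.2 (by decide)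
    · intro hm
      obtain ⟨b, hb, h1 | h1 | h1⟩ := mem_flat hm
      · rw [Prod.mk.injEq] at h1
        exact absurd h1.2 (by decide)
      · rw [Prod.mk.injEq] at h1
        exact absurd h1.2 (by decide)
      · rw [Prod.mk.injEq] at h1
        exact h.1 ((α.injective h1.1) ▸ hb)

theorem ne_flat (hopp : ∀ a, α' a = wa α a) (hne : ∀ d, α d ≠ d) {r : List D} {a : D × Fin 5}
    (h : a ∈ r.flatMap (Fw α)) : wpt σ pt a ≠ wpt σ pt (α' a) := by
  obtain ⟨d, -, rfl | rfl | rfl⟩ := mem_flat h
  · rw [hopp]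
    simp [wpt, wa]
  · rw [hopp]
    simp only [wpt, wa]
    simp
    exact fun h => hne d h.symm
  · rw [hopp]
    simp [wpt, wa]

section count

variable [BEq (X ⊕ D)] [LawfulBEq (X ⊕ D)] [BEq X] [LawfulBEq X] [BEq D] [LawfulBEq D]

theorem count_inl (x : X) : ∀ r : List D,
    ((r.flatMap (Fw α)).map (wpt σ pt)).count (Sum.inl x) = (r.map pt).count x
  | [] => by simp
  | d :: r => by
    rw [flat_cons]
    simp only [List.map_cons, List.count_cons, count_inl x r]
    simp [wpt]

theorem count_inr (δ : D) : ∀ r : List D,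
    ((r.flatMap (Fw α)).map (wpt σ pt)).count (Sum.inr δ) = r.count δ + (r.map α).count δ
  | [] => by simp
  | d :: r => by
    rw [flat_cons]
    simp only [List.map_cons, List.count_cons, count_inr δ r]
    simp only [wpt]
    simp
    omega

theorem count_inl_tail (x : X) (r : List D) :
    ((r.flatMap (Fw α)).tail.map (wpt σ pt)).count (Sum.inl x) = (r.tail.map pt).count x := by
  cases r with
  | nil => simp
  | cons d r =>
    rw [flat_cons]
    simp only [List.tail_cons, List.map_cons, List.count_cons, count_inl x r]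
    simp [wpt]

theorem count_inr_tail (δ : D) (r : List D) :
    ((r.flatMap (Fw α)).tail.map (wpt σ pt)).count (Sum.inr δ) ≤
      r.count δ + (r.map α).count δ := by
  rw [← count_inr (σ := σ) (pt := pt) δ r]
  exact ((List.tail_sublist _).map _).count_le _

end count

end gen

/-- the number of uses of a segment by an edge -/
theorem use_le (P : PreDrawing src tgt) (e : E) (d : P.D) :
    (P.route e).count d + (P.route e).count (P.α d) ≤ sg P e d := by
  have h1 : (P.route e).count d + (P.route e).count (P.α d) ≤ 1 :=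
    (Finset.single_le_sum (f := fun e => (P.route e).count d + (P.route e).count (P.α d))
      (fun _ _ => Nat.zero_le _) (Finset.mem_univ e)).trans (P.route_use d)
  unfold sg
  split_ifs with h
  · exact h1
  · push Not at h
    rw [List.count_eq_zero_of_not_mem h.1, List.count_eq_zero_of_not_mem h.2]

theorem use_le' (P : PreDrawing src tgt) (e : E) (d : P.D) :
    (P.route e).count d + ((P.route e).map P.α).count d ≤ sg P e d := by
  rw [M8.count_map_α P.α_invol]
  exact use_le P e d

theorem use_rev_le (P : PreDrawing src tgt) (e : E) (d : P.D) :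
    (M8.rev P.α (P.route e)).count d + ((M8.rev P.α (P.route e)).map P.α).count d ≤ sg P e d := by
  rw [M8.count_map_α P.α_invol]
  have h := M8.use_rev P.α_invol d (P.route e)
  have h2 := use_le P e d
  unfold M8.use at h
  omega

theorem nodup_route (P : PreDrawing src tgt) (e : E) : (P.route e).Nodup := by
  rw [List.nodup_iff_count_le_one]
  intro d
  have h := use_le P e d
  have h2 : sg P e d ≤ 1 := by
    unfold sg
    split_ifs <;> simp
  omega

end GR1

/-- an edge in the wheel map -/
theorem wheel_edge (P : PreDrawing src tgt) (σ' α' : Perm (P.D × Fin 5))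
    (hW : Wheel P.σ P.α P.pt σ' α') (e : E) :
    ∃ l : List (P.D × Fin 5),
      IsWalk (wpt P.σ P.pt) α' (Sum.inl (P.loc (src e))) (Sum.inl (P.loc (tgt e))) l ∧
      l.Nodup ∧ (∀ a ∈ l, wpt P.σ P.pt a ≠ wpt P.σ P.pt (α' a)) ∧
      (∀ x, (l.tail.map (wpt P.σ P.pt)).count (Sum.inl x) ≤ (ipts P e).count x) ∧
      ∀ d, (l.tail.map (wpt P.σ P.pt)).count (Sum.inr d) ≤ sg P e d := by
  haveI := GR1.lawful_sum (X := P.X) (D := P.D)
  refine ⟨(P.route e).flatMap (GR1.Fw P.α), GR1.walk_flat hW.opp (P.route_walk e),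
    GR1.nodup_flat (GR1.nodup_route P e), fun a ha => GR1.ne_flat hW.opp P.α_ne ha, ?_, ?_⟩
  · intro x
    rw [GR1.count_inl_tail]
    exact le_refl _
  · intro d
    exact (GR1.count_inr_tail d (P.route e)).trans (GR1.use_le' P e d)

/-- half of a way around: from the first rim point of an edge to its other end -/
theorem wheel_half (P : PreDrawing src tgt) (hne : ∀ e, src e ≠ tgt e)
    (σ' α' : Perm (P.D × Fin 5)) (hW : Wheel P.σ P.α P.pt σ' α') (e : E) (a u : V)
    (hau : (src e = a ∧ tgt e = u) ∨ (src e = u ∧ tgt e = a)) :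
    ∃ (δ : P.D) (l : List (P.D × Fin 5)), P.pt δ = P.loc a ∧
      IsWalk (wpt P.σ P.pt) α' (Sum.inr δ) (Sum.inl (P.loc u)) l ∧ l ≠ [] ∧ l.Nodup ∧
      (∀ b ∈ l, (b.2 = 0 ∨ b.2 = 2 ∨ b.2 = 4) ∧ sg P e b.1 = 1) ∧
      (∀ b ∈ l, wpt P.σ P.pt b ≠ wpt P.σ P.pt (α' b)) ∧
      (∀ x, (l.map (wpt P.σ P.pt)).count (Sum.inl x) ≤ (ipts P e).count x) ∧
      ∀ d, (l.map (wpt P.σ P.pt)).count (Sum.inr d) ≤ sg P e d := by
  haveI := GR1.lawful_sum (X := P.X) (D := P.D)
  have hr0 : P.route e ≠ [] := by
    intro h0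
    have h1 := P.route_walk e
    rw [h0] at h1
    exact hne e (P.loc_inj h1)
  obtain ⟨r, h1, h2, h3, h4, h5, h6⟩ : ∃ r : List P.D, IsWalk P.pt P.α (P.loc a) (P.loc u) r ∧
      r ≠ [] ∧ r.Nodup ∧ (∀ d, r.count d + (r.map P.α).count d ≤ sg P e d) ∧
      (∀ x, (r.tail.map P.pt).count x ≤ (ipts P e).count x) ∧
      (∀ d ∈ r, sg P e d = 1 ∧ sg P e (P.α d) = 1) := by
    rcases hau with ⟨e1, e2⟩ | ⟨e1, e2⟩
    · subst e1 e2
      refine ⟨P.route e, P.route_walk e, hr0, GR1.nodup_route P e, GR1.use_le' P e,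
        fun x => le_refl _, ?_⟩
      intro d hd
      constructor
      · exact if_pos (Or.inl hd)
      · refine if_pos (Or.inr ?_)
        rw [P.α_invol]
        exact hd
    · subst e1 e2
      refine ⟨M8.rev P.α (P.route e), M8.isWalk_rev P.α_invol (P.route_walk e),
        M8.rev_ne_nil hr0, ?_, GR1.use_rev_le P e, ?_, ?_⟩
      · unfold M8.rev
        rw [List.nodup_reverse]
        exact (GR1.nodup_route P e).map P.α.injective
      · intro x
        exact (M8.inner_rev P.α_invol x hr0 (P.route_walk e)).le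
      · intro d hd
        unfold M8.rev at hd
        rw [List.mem_reverse, List.mem_map] at hd
        obtain ⟨b, hb, rfl⟩ := hd
        constructor
        · refine if_pos (Or.inr ?_)
          rw [P.α_invol]
          exact hb
        · refine if_pos (Or.inl ?_)
          rw [P.α_invol]
          exact hb
  cases r with
  | nil => exact absurd rfl h2
  | cons δ t =>
    have hw := GR1.walk_flat (σ := P.σ) hW.opp h1
    have hn := GR1.nodup_flat (α := P.α) h3
    have hsub : ∀ b ∈ (δ, (0 : Fin 5)) :: (P.α δ, (2 : Fin 5)) :: t.flatMap (GR1.Fw P.α),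
        b ∈ (δ :: t).flatMap (GR1.Fw P.α) := by
      intro b hb
      rw [GR1.flat_cons]
      exact List.mem_cons_of_mem _ hb
    refine ⟨δ, (δ, 0) :: (P.α δ, 2) :: t.flatMap (GR1.Fw P.α), h1.1, ?_, by simp, ?_, ?_, ?_,
      ?_, ?_⟩
    · rw [GR1.flat_cons] at hw
      have h7 := hw.2
      rw [hW.opp] at h7
      have h8 : wpt P.σ P.pt (wa P.α (δ, 4)) = Sum.inr δ := by
        simp [wpt, wa]
      rw [h8] at h7
      exact h7
    · rw [GR1.flat_cons] at hn
      exact (List.nodup_cons.1 hn).2
    · intro b hb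
      obtain ⟨d, hd, h7 | h7 | h7⟩ := GR1.mem_flat (hsub b hb)
      · rw [h7]
        exact ⟨Or.inr (Or.inr rfl), (h6 d hd).1⟩
      · rw [h7]
        exact ⟨Or.inl rfl, (h6 d hd).1⟩
      · rw [h7]
        exact ⟨Or.inr (Or.inl rfl), (h6 d hd).2⟩
    · intro b hb
      exact GR1.ne_flat hW.opp P.α_ne (hsub b hb)
    · intro x
      have h7 := GR1.count_inl_tail (σ := P.σ) (α := P.α) (pt := P.pt) x (δ :: t)
      rw [GR1.flat_cons, List.tail_cons] at h7
      rw [h7]
      exact h5 x
    · intro d
      have h7 := GR1.count_inr_tail (σ := P.σ) (α := P.α) (pt := P.pt) d (δ :: t)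
      rw [GR1.flat_cons, List.tail_cons] at h7
      exact h7.trans (h4 d)

end Helper5.BD
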