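import Pool.Agent.Helper5.BD.Defs

/-!
# Module C5: the edges joining ends of the two edges of a crossing
-/

noncomputable section

open Finset Helper5.CR Classical

namespace Helper5.BD

variable {V E X : Type} [Fintype V] [Fintype E] [Fintype X] {C : CSys V E X} {d : ℕ}

theorem C5.card_pair_le_one (O : Ori C d) (u v : V) :
    (univ.filter (fun e => (O.lo e = u ∧ O.hi e = v) ∨ (O.lo e = v ∧ O.hi e = u))).card ≤ 1 := by
  rw [Finset.card_le_one]
  intro e he f hf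
  simp only [mem_filter, mem_univ, true_and] at he hf
  rcases he with ⟨h1, h2⟩ | ⟨h1, h2⟩ <;> rcases hf with ⟨h3, h4⟩ | ⟨h3, h4⟩
  · exact O.uniq e f (h1.trans h3.symm) (h2.trans h4.symm)
  · exact (O.anti e f (h1.trans h4.symm) (h2.trans h3.symm)).elim
  · exact (O.anti e f (h1.trans h4.symm) (h2.trans h3.symm)).elim
  · exact O.uniq e f (h1.trans h3.symm) (h2.trans h4.symm)

/-- at most four edges join ends of different edges of a crossing -/
theorem card_jn_le_four (O : Ori C d) (x : X) : (univ.filter (fun e => O.jn x e)).card ≤ 4 := by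
  set P : V → V → Finset E := fun u v =>
    univ.filter (fun e => (O.lo e = u ∧ O.hi e = v) ∨ (O.lo e = v ∧ O.hi e = u)) with hP
  have h1 : ∀ u v, (P u v).card ≤ 1 := fun u v => C5.card_pair_le_one O u v
  have hsub : univ.filter (fun e => O.jn x e) ⊆
      ((P (O.lo (C.e₁ x)) (O.lo (C.e₂ x)) ∪ P (O.lo (C.e₁ x)) (O.hi (C.e₂ x))) ∪
        (P (O.hi (C.e₁ x)) (O.lo (C.e₂ x)) ∪ P (O.hi (C.e₁ x)) (O.hi (C.e₂ x)))) := by
    intro e he
    simp only [mem_filter, mem_univ, true_and, Ori.jn, Ori.cp] at he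
    simp only [hP, mem_union, mem_filter, mem_univ, true_and]
    tauto
  have h2 := card_le_card hsub
  have h3 := card_union_le (P (O.lo (C.e₁ x)) (O.lo (C.e₂ x)) ∪ P (O.lo (C.e₁ x)) (O.hi (C.e₂ x)))
    (P (O.hi (C.e₁ x)) (O.lo (C.e₂ x)) ∪ P (O.hi (C.e₁ x)) (O.hi (C.e₂ x)))
  have h4 := card_union_le (P (O.lo (C.e₁ x)) (O.lo (C.e₂ x))) (P (O.lo (C.e₁ x)) (O.hi (C.e₂ x)))
  have h5 := card_union_le (P (O.hi (C.e₁ x)) (O.lo (C.e₂ x))) (P (O.hi (C.e₁ x)) (O.hi (C.e₂ x)))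
  have h6 := h1 (O.lo (C.e₁ x)) (O.lo (C.e₂ x))
  have h7 := h1 (O.lo (C.e₁ x)) (O.hi (C.e₂ x))
  have h8 := h1 (O.hi (C.e₁ x)) (O.lo (C.e₂ x))
  have h9 := h1 (O.hi (C.e₁ x)) (O.hi (C.e₂ x))
  omega

/-- classification of the crossings by the edges joining the ends of their edges -/
theorem jn_class (O : Ori C d) (x : X) (h1 : ¬ O.N1 x) (h2 : ¬ O.N2 x) (h3 : ¬ O.G2 x)
    (h4 : ¬ O.T x) : (univ.filter (fun e => O.jn x e)).card ≤ 1 ∨
      (O.AB x ∧ (univ.filter (fun e => O.jn x e)).card ≤ 2) := by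
  have hac : ¬ O.arc (O.lo (C.e₁ x)) (O.lo (C.e₂ x)) := fun h => h1 (Or.inl h)
  have hca : ¬ O.arc (O.lo (C.e₂ x)) (O.lo (C.e₁ x)) := fun h => h1 (Or.inr h)
  have hbc : ¬ O.arc (O.hi (C.e₁ x)) (O.lo (C.e₂ x)) := fun h => h2 (Or.inl h)
  have hfa : ¬ O.arc (O.hi (C.e₂ x)) (O.lo (C.e₁ x)) := fun h => h2 (Or.inr h)
  have hbf : ¬ O.arc (O.hi (C.e₁ x)) (O.hi (C.e₂ x)) := by
    intro h
    by_cases hadj : O.adj (O.lo (C.e₁ x)) (O.hi (C.e₂ x))
    · rcases hadj with h5 | h5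
      · exact h4 (Or.inl ⟨h, h5⟩)
      · exact hfa h5
    · exact h3 ⟨O.lo (C.e₁ x), O.hi (C.e₂ x), ⟨hadj, O.hi (C.e₁ x), ⟨C.e₁ x, rfl, rfl⟩, h⟩,
        Or.inl ⟨Or.inl rfl, Or.inr rfl⟩⟩
  have hfb : ¬ O.arc (O.hi (C.e₂ x)) (O.hi (C.e₁ x)) := by
    intro h
    by_cases hadj : O.adj (O.lo (C.e₂ x)) (O.hi (C.e₁ x))
    · rcases hadj with h5 | h5
      · exact h4 (Or.inr ⟨h, h5⟩)
      · exact hbc h5
    · exact h3 ⟨O.lo (C.e₂ x), O.hi (C.e₁ x), ⟨hadj, O.hi (C.e₂ x), ⟨C.e₂ x, rfl, rfl⟩, h⟩,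
        Or.inr ⟨Or.inr rfl, Or.inl rfl⟩⟩
  set S1 : Finset E := univ.filter (fun e => O.lo e = O.lo (C.e₁ x) ∧ O.hi e = O.hi (C.e₂ x))
    with hS1
  set S2 : Finset E := univ.filter (fun e => O.lo e = O.lo (C.e₂ x) ∧ O.hi e = O.hi (C.e₁ x))
    with hS2
  have c1 : S1.card ≤ 1 := by
    rw [Finset.card_le_one]
    intro e he f hf
    simp only [hS1, mem_filter, mem_univ, true_and] at he hf
    exact O.uniq e f (he.1.trans hf.1.symm) (he.2.trans hf.2.symm)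
  have c2 : S2.card ≤ 1 := by
    rw [Finset.card_le_one]
    intro e he f hf
    simp only [hS2, mem_filter, mem_univ, true_and] at he hf
    exact O.uniq e f (he.1.trans hf.1.symm) (he.2.trans hf.2.symm)
  have hsub : univ.filter (fun e => O.jn x e) ⊆ S1 ∪ S2 := by
    intro e he
    simp only [mem_filter, mem_univ, true_and] at he
    simp only [hS1, hS2, mem_union, mem_filter, mem_univ, true_and]
    rcases he with ⟨h5 | h5, h6 | h6⟩ | ⟨h5 | h5, h6 | h6⟩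
    · exact (hac ⟨e, h5, h6⟩).elim
    · exact Or.inl ⟨h5, h6⟩
    · exact (hbc ⟨e, h5, h6⟩).elim
    · exact (hbf ⟨e, h5, h6⟩).elim
    · exact (hca ⟨e, h6, h5⟩).elim
    · exact (hfa ⟨e, h6, h5⟩).elim
    · exact Or.inr ⟨h6, h5⟩
    · exact (hfb ⟨e, h6, h5⟩).elim
  have hc := (card_le_card hsub).trans (card_union_le S1 S2)
  by_cases e1 : S1.Nonempty
  · by_cases e2 : S2.Nonempty
    · right
      obtain ⟨e, he⟩ := e1
      obtain ⟨f, hf⟩ := e2
      simp only [hS1, mem_filter, mem_univ, true_and] at he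
      simp only [hS2, mem_filter, mem_univ, true_and] at hf
      refine ⟨⟨⟨e, he⟩, ⟨f, hf⟩, ?_⟩, by omega⟩
      rintro (h5 | h5)
      · exact hbf h5
      · exact hfb h5
    · left
      rw [Finset.not_nonempty_iff_eq_empty] at e2
      rw [e2, card_empty] at hc
      omega
  · left
    rw [Finset.not_nonempty_iff_eq_empty] at e1
    rw [e1, card_empty] at hc
    omega

end Helper5.BD
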